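import Pool.Agent.H6.F1
import Pool.Agent.H6.Glue
import Pool.Agent.H5.ModuleA

/-!
# MP_103a5c SimpleZeros v2: long averages of Montgomery's function

If `N(T; -β, β) ≤ c (T/2π) log T` for some `β > 0`, then the average of `F(α, T)` over every interval of length at
least `ℓ₀` is at most `c + ε`, for all large `T`.
-/

open MeasureTheory Set Filter Topology
open scoped Real Interval

namespace H98.SZ2

open Pool.Agent Pool.Agent.H6

/-- the averaged kernel -/
noncomputable def Kav (b B y : ℝ) : ℝ := ∫ s in (0 : ℝ)..1, ∫ α in b..B, Real.cos ((α - s) * y)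

lemma cos_cont (y : ℝ) : Continuous (Function.uncurry fun s α : ℝ => Real.cos ((α - s) * y)) := by
  unfold Function.uncurry
  fun_prop

lemma inner_cont (b B y : ℝ) : Continuous fun s : ℝ => ∫ α in b..B, Real.cos ((α - s) * y) :=
  intervalIntegral.continuous_parametric_intervalIntegral_of_continuous' (cos_cont y) b B

lemma Kav_le (b B y : ℝ) (h : b ≤ B) : |Kav b B y| ≤ B - b := by
  unfold Kav
  have h1 : ∀ s ∈ Ι (0 : ℝ) 1, ‖∫ α in b..B, Real.cos ((α - s) * y)‖ ≤ B - b := by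
    intro s _
    have h2 := intervalIntegral.norm_integral_le_of_norm_le_const (a := b) (b := B) (C := 1)
      (f := fun α : ℝ => Real.cos ((α - s) * y)) (fun α _ => by
        rw [Real.norm_eq_abs]; exact Real.abs_cos_le_one _)
    rwa [one_mul, abs_of_nonneg (by linarith : 0 ≤ B - b)] at h2
  have h3 := intervalIntegral.norm_integral_le_of_norm_le_const h1
  rw [Real.norm_eq_abs] at h3
  simpa using h3

lemma inner_eq (b B y s : ℝ) (hy : y ≠ 0) :
    ∫ α in b..B, Real.cos ((α - s) * y) = y⁻¹ * (Real.sin ((B - s) * y) - Real.sin ((b - s) * y)) := by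
  rw [intervalIntegral.integral_comp_sub_right (fun x => Real.cos (x * y)) s,
    intervalIntegral.integral_comp_mul_right (fun x => Real.cos x) hy, integral_cos, smul_eq_mul]

lemma int_sin (d y : ℝ) (hy : y ≠ 0) :
    ∫ s in (0 : ℝ)..1, Real.sin ((d - s) * y) = y⁻¹ * (Real.cos ((d - 1) * y) - Real.cos (d * y)) := by
  rw [intervalIntegral.integral_comp_sub_left (fun x => Real.sin (x * y)) d,
    intervalIntegral.integral_comp_mul_right (fun x => Real.sin x) hy, integral_sin, smul_eq_mul, sub_zero]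

lemma Kav_sq (b B y : ℝ) : |Kav b B y| * y ^ 2 ≤ 4 := by
  by_cases hy : y = 0
  · rw [hy]; norm_num
  have h1 : Kav b B y = y⁻¹ * (y⁻¹ * (Real.cos ((B - 1) * y) - Real.cos (B * y)) -
      y⁻¹ * (Real.cos ((b - 1) * y) - Real.cos (b * y))) := by
    unfold Kav
    simp_rw [inner_eq b B y _ hy]
    rw [intervalIntegral.integral_const_mul, intervalIntegral.integral_sub, int_sin _ _ hy, int_sin _ _ hy]
    · exact Continuous.intervalIntegrable (by fun_prop) _ _
    · exact Continuous.intervalIntegrable (by fun_prop) _ _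
  have h2 : Kav b B y = ((Real.cos ((B - 1) * y) - Real.cos (B * y)) -
      (Real.cos ((b - 1) * y) - Real.cos (b * y))) / y ^ 2 := by
    rw [h1]
    field_simp
  rw [h2, abs_div, abs_of_nonneg (sq_nonneg y), div_mul_cancel₀ _ (by positivity)]
  have a1 := Real.abs_cos_le_one ((B - 1) * y)
  have a2 := Real.abs_cos_le_one (B * y)
  have a3 := Real.abs_cos_le_one ((b - 1) * y)
  have a4 := Real.abs_cos_le_one (b * y)
  rw [abs_le] at *
  constructor <;> linarith [a1.1, a1.2, a2.1, a2.2, a3.1, a3.2, a4.1, a4.2]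

/-- the tail density -/
noncomputable def pb (β v : ℝ) : ℝ := (Ioi β).indicator (fun v => 2 * v ^ (-3 : ℝ)) v

lemma pb_nonneg {β : ℝ} (hβ : 0 < β) (v : ℝ) : 0 ≤ pb β v := by
  unfold pb
  apply indicator_nonneg
  intro x hx
  have hx' : β < x := hx
  have : 0 ≤ x := by linarith
  positivity

lemma integrable_pb {β : ℝ} (hβ : 0 < β) : Integrable (pb β) := by
  unfold pb
  rw [integrable_indicator_iff measurableSet_Ioi]
  exact (integrableOn_Ioi_rpow_of_lt (by norm_num) hβ).const_mul 2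

lemma tail_pb_nonneg {β : ℝ} (hβ : 0 < β) (u : ℝ) : 0 ≤ tail (pb β) u := by
  unfold tail
  exact setIntegral_nonneg measurableSet_Ioi fun v _ => pb_nonneg hβ v

lemma tail_pb {β : ℝ} (hβ : 0 < β) {u : ℝ} (hu : β < |u|) : tail (pb β) u = 1 / u ^ 2 := by
  unfold tail
  have h0 : 0 < |u| := by linarith
  have h1 : ∫ v in Ioi |u|, pb β v = ∫ v in Ioi |u|, 2 * v ^ (-3 : ℝ) := by
    apply setIntegral_congr_fun measurableSet_Ioi
    intro v hv
    have hv' : |u| < v := hv
    unfold pb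
    rw [indicator_of_mem (show v ∈ Ioi β from by simp only [mem_Ioi]; linarith)]
  rw [h1, integral_const_mul, integral_Ioi_rpow_of_lt (by norm_num) h0]
  have h2 : |u| ^ ((-3 : ℝ) + 1) = 1 / u ^ 2 := by
    rw [show ((-3 : ℝ) + 1) = -(2 : ℕ) by norm_num, Real.rpow_neg h0.le, Real.rpow_natCast, sq_abs, one_div]
  rw [h2]
  ring

lemma pointwise {β : ℝ} (hβ : 0 < β) (b ℓ : ℝ) (hℓ : 0 ≤ ℓ) (u : ℝ) :
    |Kav b (b + ℓ + 1) (2 * π * u)| ≤ (ℓ + 1) * (if |u| ≤ β then 1 else 0) + tail (pb β) u := by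
  split_ifs with h
  · have h1 := Kav_le b (b + ℓ + 1) (2 * π * u) (by linarith)
    have h2 := tail_pb_nonneg hβ u
    linarith
  · push Not at h
    rw [mul_zero, zero_add, tail_pb hβ h]
    have h0 : 0 < |u| := by linarith
    have hu : 0 < u ^ 2 := by rw [← sq_abs]; positivity
    have h1 := Kav_sq b (b + ℓ + 1) (2 * π * u)
    rw [le_div_iff₀ hu]
    have h2 : (4 : ℝ) ≤ (2 * π) ^ 2 := by nlinarith [Real.pi_gt_three]
    have h3 : |Kav b (b + ℓ + 1) (2 * π * u)| * (2 * π * u) ^ 2 = |Kav b (b + ℓ + 1) (2 * π * u)| * u ^ 2 * (2 * π) ^ 2 := by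
      ring
    rw [h3] at h1
    have h4 : 0 ≤ |Kav b (b + ℓ + 1) (2 * π * u)| * u ^ 2 := by positivity
    nlinarith

section
variable {ι : Type*} {γ w : ι → ℝ} {F : ℝ → Finset ι} {CR : ℝ}

/-- the first step: averaging over shifts -/
lemma step1 {T : ℝ} (hT : 1 < T) (b ℓ : ℝ) (hℓ : 0 ≤ ℓ) :
    ∫ α in b..(b + ℓ), FF γ w F T α ≤ ∫ s in (0 : ℝ)..1, ∫ α in b..(b + ℓ + 1), FF γ w F T (α - s) := by
  have hc := continuous_FF (γ := γ) (w := w) (F := F) T
  have hcont : Continuous fun s : ℝ => ∫ α in b..(b + ℓ + 1), FF γ w F T (α - s) :=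
    intervalIntegral.continuous_parametric_intervalIntegral_of_continuous'
      (f := fun s α => FF γ w F T (α - s)) (by unfold Function.uncurry; fun_prop) b (b + ℓ + 1)
  have h1 : ∫ s in (0 : ℝ)..1, (∫ α in b..(b + ℓ), FF γ w F T α) = ∫ α in b..(b + ℓ), FF γ w F T α := by
    rw [intervalIntegral.integral_const]; simp
  rw [← h1]
  apply intervalIntegral.integral_mono_on (by norm_num) (continuous_const.intervalIntegrable _ _)
    (hcont.intervalIntegrable _ _)
  intro s hs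
  rw [intervalIntegral.integral_comp_sub_right (fun x => FF γ w F T x) s]
  apply intervalIntegral.integral_mono_interval (by linarith [hs.1]) (by linarith) (by linarith [hs.2])
  · exact Filter.Eventually.of_forall fun x => FF_nonneg hT x
  · exact hc.intervalIntegrable _ _

/-- the second step: the double sum -/
lemma step2 (T b B : ℝ) :
    ∫ s in (0 : ℝ)..1, ∫ α in b..B, FF γ w F T (α - s) = (1 / PC.norm T) * ∑ i ∈ F T, ∑ j ∈ F T,
      w i * w j * (Wt (γ i - γ j) * Kav b B (Real.log T * (γ i - γ j))) := by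
  have e : ∀ s α : ℝ, FF γ w F T (α - s) = ∑ i ∈ F T, ∑ j ∈ F T, ((1 / PC.norm T) * (w i * w j * Wt (γ i - γ j))) *
      Real.cos ((α - s) * (Real.log T * (γ i - γ j))) := by
    intro s α
    unfold FF
    rw [Finset.mul_sum]
    apply Finset.sum_congr rfl
    intro i _
    rw [Finset.mul_sum]
    apply Finset.sum_congr rfl
    intro j _
    rw [mul_assoc (α - s)]
    ring
  simp_rw [e]
  have e2 : ∀ s : ℝ, ∫ α in b..B, (∑ i ∈ F T, ∑ j ∈ F T, ((1 / PC.norm T) * (w i * w j * Wt (γ i - γ j))) *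
      Real.cos ((α - s) * (Real.log T * (γ i - γ j)))) = ∑ i ∈ F T, ∑ j ∈ F T, ((1 / PC.norm T) * (w i * w j * Wt (γ i - γ j))) *
      ∫ α in b..B, Real.cos ((α - s) * (Real.log T * (γ i - γ j))) := by
    intro s
    rw [intervalIntegral.integral_finsetSum]
    · apply Finset.sum_congr rfl
      intro i _
      rw [intervalIntegral.integral_finsetSum]
      · apply Finset.sum_congr rfl
        intro j _
        rw [intervalIntegral.integral_const_mul]
      · intro j _
        exact Continuous.intervalIntegrable (by fun_prop) _ _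
    · intro i _
      exact Continuous.intervalIntegrable (by fun_prop) _ _
  simp_rw [e2]
  rw [intervalIntegral.integral_finsetSum, Finset.mul_sum]
  · apply Finset.sum_congr rfl
    intro i _
    rw [intervalIntegral.integral_finsetSum, Finset.mul_sum]
    · apply Finset.sum_congr rfl
      intro j _
      rw [intervalIntegral.integral_const_mul]
      unfold Kav
      ring
    · intro j _
      exact ((inner_cont b B _).const_mul _).intervalIntegrable _ _
  · intro i _
    exact (continuous_finsetSum _ fun j _ => (inner_cont b B _).const_mul _).intervalIntegrable _ _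

theorem fav_core [Countable ι] (I : Inputs γ w F CR) {c β : ℝ} (hβ : 0 < β)
    (h : ∀ᶠ T in atTop, MM γ w F T β ≤ c) {ε : ℝ} (hε : 0 < ε) :
    ∃ ℓ₀ : ℝ, 0 < ℓ₀ ∧ ∀ᶠ T in atTop, ∀ b ℓ : ℝ, ℓ₀ ≤ ℓ → ∫ α in b..(b + ℓ), FF γ w F T α ≤ (c + ε) * ℓ := by
  have hw := I.ord.w_nonneg
  obtain ⟨T0, C, hT0, hC0, hMM⟩ := MM_bound I
  have hpi : Integrable (fun v => pb β v * (C * (1 + v))) := by
    have e : (fun v => pb β v * (C * (1 + v))) = fun v => (Ioi β).indicator (fun v => 2 * C * v ^ (-3 : ℝ) + 2 * C * v ^ (-2 : ℝ)) v := by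
      ext v
      unfold pb
      by_cases hv : v ∈ Ioi β
      · rw [indicator_of_mem hv, indicator_of_mem hv]
        have hv' : β < v := hv
        have hv0 : 0 < v := by linarith
        have : v ^ (-2 : ℝ) = v ^ (-3 : ℝ) * v := by
          rw [← Real.rpow_add_one hv0.ne']
          norm_num
        rw [this]
        ring
      · rw [indicator_of_notMem hv, indicator_of_notMem hv, zero_mul]
    rw [e, integrable_indicator_iff measurableSet_Ioi]
    exact ((integrableOn_Ioi_rpow_of_lt (by norm_num) hβ).const_mul (2 * C)).add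
      ((integrableOn_Ioi_rpow_of_lt (by norm_num) hβ).const_mul (2 * C))
  set A : ℝ := ∫ v in Ioi 0, pb β v * (C * (1 + v)) with hA
  have hA0 : 0 ≤ A := by
    apply setIntegral_nonneg measurableSet_Ioi
    intro v hv
    have hv' : 0 < v := hv
    exact mul_nonneg (pb_nonneg hβ v) (by positivity)
  refine ⟨(|c| + A) / ε + 1, by positivity, ?_⟩
  filter_upwards [h, eventually_ge_atTop T0, eventually_gt_atTop 1] with T hc hTT0 hT b ℓ hℓ
  have hℓ0 : 0 ≤ ℓ := by
    have : 0 ≤ (|c| + A) / ε + 1 := by positivity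
    linarith
  have hn := norm_pos hT
  have hL := Real.log_pos hT
  refine (step1 hT b ℓ hℓ0).trans ?_
  rw [step2]
  have h1 : ∀ i j, w i * w j * (Wt (γ i - γ j) * Kav b (b + ℓ + 1) (Real.log T * (γ i - γ j))) ≤
      (ℓ + 1) * (if |(γ i - γ j) * Real.log T / (2 * π)| ≤ β then w i * w j else 0)
      + w i * w j * tail (pb β) ((γ i - γ j) * Real.log T / (2 * π)) := by
    intro i j
    have hwij := mul_nonneg (hw i) (hw j)
    set u := (γ i - γ j) * Real.log T / (2 * π) with hu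
    have hy : Real.log T * (γ i - γ j) = 2 * π * u := by
      rw [hu]; field_simp
    have h2 := pointwise hβ b ℓ hℓ0 u
    have h3 : Wt (γ i - γ j) * Kav b (b + ℓ + 1) (Real.log T * (γ i - γ j)) ≤ |Kav b (b + ℓ + 1) (2 * π * u)| := by
      rw [hy]
      have hW1 := (one_sub_Wt (γ i - γ j)).1
      have hW0 := Wt_nonneg (γ i - γ j)
      calc Wt (γ i - γ j) * Kav b (b + ℓ + 1) (2 * π * u) ≤ Wt (γ i - γ j) * |Kav b (b + ℓ + 1) (2 * π * u)| :=
            mul_le_mul_of_nonneg_left (le_abs_self _) hW0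
        _ ≤ 1 * |Kav b (b + ℓ + 1) (2 * π * u)| := mul_le_mul_of_nonneg_right (by linarith) (abs_nonneg _)
        _ = _ := one_mul _
    have h4 := mul_le_mul_of_nonneg_left (h3.trans h2) hwij
    refine h4.trans (le_of_eq ?_)
    split_ifs <;> ring
  have h5 : (1 / PC.norm T) * ∑ i ∈ F T, ∑ j ∈ F T,
      w i * w j * (Wt (γ i - γ j) * Kav b (b + ℓ + 1) (Real.log T * (γ i - γ j))) ≤
      (ℓ + 1) * MM γ w F T β + ∫ v in Ioi 0, pb β v * MM γ w F T v := by
    rw [← sum_tail_eq (integrable_pb hβ)]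
    unfold MM
    rw [mul_left_comm (ℓ + 1), ← mul_add]
    apply mul_le_mul_of_nonneg_left _ (by positivity)
    rw [Finset.mul_sum, ← Finset.sum_add_distrib]
    apply Finset.sum_le_sum
    intro i _
    rw [Finset.mul_sum, ← Finset.sum_add_distrib]
    apply Finset.sum_le_sum
    intro j _
    exact h1 i j
  have h6 : ∫ v in Ioi 0, pb β v * MM γ w F T v ≤ A := by
    rw [hA]
    have hmeas : Measurable (fun v => pb β v * MM γ w F T v) := by
      apply Measurable.mul
      · unfold pb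
        exact (by fun_prop : Measurable fun v : ℝ => 2 * v ^ (-3 : ℝ)).indicator measurableSet_Ioi
      · exact (MM_mono hw hT).measurable
    have hle : ∀ v ∈ Ioi (0 : ℝ), pb β v * MM γ w F T v ≤ pb β v * (C * (1 + v)) := by
      intro v hv
      have hv' : 0 < v := hv
      exact mul_le_mul_of_nonneg_left (hMM T hTT0 v hv'.le) (pb_nonneg hβ v)
    apply setIntegral_mono_on _ hpi.integrableOn measurableSet_Ioi hle
    apply Integrable.mono' hpi.integrableOn hmeas.aestronglyMeasurable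
    filter_upwards [ae_restrict_mem measurableSet_Ioi] with v hv
    rw [Real.norm_eq_abs, abs_of_nonneg (mul_nonneg (pb_nonneg hβ v) (MM_nonneg hw hT v))]
    exact hle v hv
  have h7 : |c| + A ≤ ε * ℓ := by
    have h8 : (|c| + A) / ε ≤ ℓ := by linarith
    rw [div_le_iff₀ hε] at h8
    linarith
  have h9 : (ℓ + 1) * MM γ w F T β ≤ (ℓ + 1) * c := mul_le_mul_of_nonneg_left hc (by linarith)
  have h10 := le_abs_self c
  calc _ ≤ (ℓ + 1) * MM γ w F T β + ∫ v in Ioi 0, pb β v * MM γ w F T v := h5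
    _ ≤ (ℓ + 1) * c + A := add_le_add h9 h6
    _ ≤ (c + ε) * ℓ := by linarith

end

section zeta

theorem zfacts (RH : RiemannHypothesis) : ZetaFacts :=
  ⟨Pool.Agent.H5.Z_countable, fun _ ha t => Pool.Agent.H5.hasSum_poisson RH ha t⟩

instance countable_Z : Countable PC.Z := Pool.Agent.H5.Z_countable.to_subtype

open Classical in
/-- ordered pairs of zeros up to height `T` -/
theorem zerosProd (RH : RiemannHypothesis) (T : ℝ) :
    {p : ℂ × ℂ | p.1 ∈ PC.zerosUpTo T ∧ p.2 ∈ PC.zerosUpTo T} =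
      toPair '' ((FZ T ×ˢ FZ T : Finset (PC.Z × PC.Z)) : Set (PC.Z × PC.Z)) := by
  ext ⟨ρ, ρ'⟩
  simp only [Set.mem_ofPred_eq, Set.mem_image, Finset.coe_product, Set.mem_prod, Finset.mem_coe, mem_FZ]
  constructor
  · rintro ⟨h1, h2⟩
    obtain ⟨a1, a2, a3, a4, a5⟩ := h1
    obtain ⟨b1, b2, b3, b4, b5⟩ := h2
    have e1 := re_eq_half RH a1 a2 a3
    have e2 := re_eq_half RH b1 b2 b3
    have z1 : ρ.im ∈ PC.Z := by unfold PC.Z; simp only [Set.mem_ofPred_eq]; rw [← e1]; exact a1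
    have z2 : ρ'.im ∈ PC.Z := by unfold PC.Z; simp only [Set.mem_ofPred_eq]; rw [← e2]; exact b1
    refine ⟨(⟨ρ.im, z1⟩, ⟨ρ'.im, z2⟩), ⟨⟨a4, a5⟩, ⟨b4, b5⟩⟩, ?_⟩
    unfold toPair
    simp only
    rw [← e1, ← e2]
  · rintro ⟨⟨i, j⟩, ⟨⟨a1, a2⟩, ⟨b1, b2⟩⟩, h⟩
    unfold toPair at h
    simp only [Prod.mk.injEq] at h
    obtain ⟨rfl, rfl⟩ := h
    have him : ∀ i : PC.Z, ((1 / 2 : ℂ) + ((i : ℝ) : ℂ) * Complex.I).im = gZ i := by
      intro i; simp [gZ]
    have hre : ∀ i : PC.Z, ((1 / 2 : ℂ) + ((i : ℝ) : ℂ) * Complex.I).re = 1 / 2 := by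
      intro i; simp
    refine ⟨⟨i.2, ?_, ?_, ?_, ?_⟩, ⟨j.2, ?_, ?_, ?_, ?_⟩⟩
    · rw [hre]; norm_num
    · rw [hre]; norm_num
    · rw [him]; exact a1
    · rw [him]; exact a2
    · rw [hre]; norm_num
    · rw [hre]; norm_num
    · rw [him]; exact b1
    · rw [him]; exact b2

/-- sums over pairs of zeros as double sums over ordinates -/
theorem finsum_zeros (RH : RiemannHypothesis) (T : ℝ) (f : ℝ → ℝ) :
    ∑ᶠ p ∈ {p : ℂ × ℂ | p.1 ∈ PC.zerosUpTo T ∧ p.2 ∈ PC.zerosUpTo T},
      (analyticOrderNatAt riemannZeta p.1 : ℝ) * (analyticOrderNatAt riemannZeta p.2 : ℝ) * f (p.1.im - p.2.im)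
      = ∑ i ∈ FZ T, ∑ j ∈ FZ T, wZ i * wZ j * f (gZ i - gZ j) := by
  rw [zerosProd RH, finsum_mem_image toPair_injective.injOn, finsum_mem_coe_finset, Finset.sum_product]
  apply Finset.sum_congr rfl
  intro i _
  apply Finset.sum_congr rfl
  intro j _
  have him : ∀ i : PC.Z, ((1 / 2 : ℂ) + ((i : ℝ) : ℂ) * Complex.I).im = gZ i := by
    intro i; simp [gZ]
  unfold toPair
  simp only
  rw [him, him]
  rfl

/-- Montgomery's function `F(α) = F(α, T)`: `((T / 2π) log T)⁻¹` times the sum over the ordered pairs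
of nontrivial zeros with `0 < γ, γ' ≤ T`, counted with multiplicity, of
`cos(α (γ - γ') log T) w(γ - γ')` with `w(u) = 4 / (4 + u²)`. -/
noncomputable def formFactor (T α : ℝ) : ℝ :=
  (PC.norm T)⁻¹ * ∑ᶠ p ∈ {p : ℂ × ℂ | p.1 ∈ PC.zerosUpTo T ∧ p.2 ∈ PC.zerosUpTo T},
    (analyticOrderNatAt riemannZeta p.1 : ℝ) * (analyticOrderNatAt riemannZeta p.2 : ℝ) *
      (Real.cos (α * Real.log T * (p.1.im - p.2.im)) * (4 / (4 + (p.1.im - p.2.im) ^ 2)))

lemma formFactor_eq (RH : RiemannHypothesis) (T α : ℝ) : formFactor T α = FF gZ wZ FZ T α := by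
  unfold formFactor FF Wt
  rw [finsum_zeros RH T (fun x => Real.cos (α * Real.log T * x) * (4 / (4 + x ^ 2))), one_div]

lemma MM_eq (RH : RiemannHypothesis) {T : ℝ} (hT : 1 < T) (β : ℝ) :
    MM gZ wZ FZ T β = PC.pairCount T (-β) β / PC.norm T := by
  rw [pairCount_eq RH, MM, one_div, mul_comm, ← div_eq_mul_inv]
  congr 1
  apply Finset.sum_congr rfl
  intro i _
  apply Finset.sum_congr rfl
  intro j _
  have hl := Real.log_pos hT
  have hπ := Real.pi_pos
  have hiff : |(gZ i - gZ j) * Real.log T / (2 * π)| ≤ β ↔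
      (2 * π * -β / Real.log T ≤ gZ i - gZ j ∧ gZ i - gZ j ≤ 2 * π * β / Real.log T) := by
    rw [abs_le, le_div_iff₀ (by positivity), div_le_iff₀ (by positivity), div_le_iff₀ hl, le_div_iff₀ hl,
      mul_comm (-β), mul_comm β]
  simp only [hiff]

/-- **Long averages of Montgomery's function.** -/
theorem fav (RH : RiemannHypothesis) {c β : ℝ} (hβ : 0 < β)
    (h : ∀ᶠ T in atTop, PC.pairCount T (-β) β ≤ c * PC.norm T) {ε : ℝ} (hε : 0 < ε) :
    ∃ ℓ₀ : ℝ, 0 < ℓ₀ ∧ ∀ᶠ T in atTop, ∀ b ℓ : ℝ, ℓ₀ ≤ ℓ →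
      ∫ α in b..(b + ℓ), formFactor T α ≤ (c + ε) * ℓ := by
  obtain ⟨CR, I⟩ := inputs (zfacts RH)
  have h1 : ∀ᶠ T in atTop, MM gZ wZ FZ T β ≤ c := by
    filter_upwards [h, eventually_gt_atTop 1] with T hT hT1
    rw [MM_eq RH hT1, div_le_iff₀ (norm_pos hT1)]
    exact hT
  obtain ⟨ℓ₀, h0, h2⟩ := fav_core I hβ h1 hε
  refine ⟨ℓ₀, h0, ?_⟩
  filter_upwards [h2] with T hT b ℓ hℓ
  simp_rw [formFactor_eq RH]
  exact hT b ℓ hℓ

end zeta

end H98.SZ2
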